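import Pool.Agent.H17.SQA.Stmts

/-!
# SQA, DIM: the dimension bound
-/

set_option autoImplicit false

namespace Pool.SQA.DIM50

open Finset Pool.SQA

/-- The number of pairs. -/
theorem card_pr {m : ℕ} (d : ℕ) (o : Finset (Fin m) → Fin m) (I : Finset (Fin m)) (hd : 1 ≤ d)
    (hI : I.card = 2 * d) (ho : o I ∈ I) :
    Fintype.card (Pr d o I) = (2 * d - 1).choose (d - 1) := by
  rw [Fintype.card_subtype]
  have h1 : ((I.erase (o I)).powersetCard (d - 1)).card = (2 * d - 1).choose (d - 1) := by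
    rw [Finset.card_powersetCard, Finset.card_erase_of_mem ho, hI]
  rw [← h1]
  refine Finset.card_nbij' (fun B => B.erase (o I)) (fun C => insert (o I) C) ?_ ?_ ?_ ?_
  · intro B hB
    obtain ⟨-, hB1, hB2, hB3⟩ := Finset.mem_filter.1 (Finset.mem_coe.1 hB)
    refine Finset.mem_coe.2 (Finset.mem_powersetCard.2 ⟨Finset.erase_subset_erase _ hB1, ?_⟩)
    rw [Finset.card_erase_of_mem hB3, hB2]
  · intro C hC
    obtain ⟨hC1, hC2⟩ := Finset.mem_powersetCard.1 (Finset.mem_coe.1 hC)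
    have hC3 : o I ∉ C := fun h => Finset.notMem_erase (o I) I (hC1 h)
    refine Finset.mem_coe.2 (Finset.mem_filter.2 ⟨Finset.mem_univ _, ?_, ?_, ?_⟩)
    · exact Finset.insert_subset ho (hC1.trans (Finset.erase_subset _ _))
    · rw [Finset.card_insert_of_notMem hC3, hC2]
      omega
    · exact Finset.mem_insert_self _ _
  · intro B hB
    obtain ⟨-, hB1, hB2, hB3⟩ := Finset.mem_filter.1 (Finset.mem_coe.1 hB)
    exact Finset.insert_erase hB3
  · intro C hC
    obtain ⟨hC1, hC2⟩ := Finset.mem_powersetCard.1 (Finset.mem_coe.1 hC)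
    have hC3 : o I ∉ C := fun h => Finset.notMem_erase (o I) I (hC1 h)
    exact Finset.erase_insert hC3

section Moves

variable {m : ℕ} {K : Type} [Field K] {d : ℕ} {o : Finset (Fin m) → Fin m}
  {lam : Finset (Fin m) → K} {B C : Finset (Fin m)}

theorem mv_zero (y : Fin m → K) : mv d o lam B 0 y = y := by
  funext i
  unfold mv
  split_ifs
  · rw [zero_mul, zero_mul, add_zero]
  · rfl

theorem el_congr (hB : o B ∈ B) {y y' : Fin m → K} (h : ∀ i ∈ B, y i = y' i) :
    el d o B y = el d o B y' := by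
  unfold el
  rw [h _ hB, Finset.sum_congr rfl h]

theorem el_mv (hB : o B ∈ B) (hd : B.card = d) (t : K) (y : Fin m → K) :
    el d o B (mv d o lam B t y) = el d o B y := by
  have h1 : ∀ i ∈ B, mv d o lam B t y i = y i + t * lam B * el d o B y := fun i hi => if_pos hi
  have h2 : el d o B (mv d o lam B t y) = ∑ i ∈ B, mv d o lam B t y i -
    (d : K) * mv d o lam B t y (o B) := rfl
  rw [h2, Finset.sum_congr rfl h1, h1 _ hB, Finset.sum_add_distrib, Finset.sum_const, hd,
    nsmul_eq_mul]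
  have h3 : el d o B y = ∑ i ∈ B, y i - (d : K) * y (o B) := rfl
  rw [mul_add, add_sub_add_right_eq_sub, ← h3]

theorem mv_mv (hB : o B ∈ B) (hd : B.card = d) (t t' : K) (y : Fin m → K) :
    mv d o lam B t (mv d o lam B t' y) = mv d o lam B (t + t') y := by
  funext i
  by_cases hi : i ∈ B
  · have h1 : mv d o lam B t (mv d o lam B t' y) i =
        mv d o lam B t' y i + t * lam B * el d o B (mv d o lam B t' y) := if_pos hi
    have h2 : mv d o lam B t' y i = y i + t' * lam B * el d o B y := if_pos hi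
    have h3 : mv d o lam B (t + t') y i = y i + (t + t') * lam B * el d o B y := if_pos hi
    rw [h1, h2, h3, el_mv hB hd]
    ring
  · have h1 : mv d o lam B t (mv d o lam B t' y) i = mv d o lam B t' y i := if_neg hi
    have h2 : mv d o lam B t' y i = y i := if_neg hi
    have h3 : mv d o lam B (t + t') y i = y i := if_neg hi
    rw [h1, h2, h3]

theorem mv_comm (hB : o B ∈ B) (hC : o C ∈ C) (hBC : Disjoint B C) (t t' : K) (y : Fin m → K) :
    mv d o lam B t (mv d o lam C t' y) = mv d o lam C t' (mv d o lam B t y) := by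
  have hd1 : ∀ i ∈ B, i ∉ C := fun i hi hi' => (Finset.disjoint_left.1 hBC) hi hi'
  have hd2 : ∀ i ∈ C, i ∉ B := fun i hi hi' => (Finset.disjoint_left.1 hBC) hi' hi
  have e1 : el d o B (mv d o lam C t' y) = el d o B y :=
    el_congr hB fun i hi => if_neg (hd1 i hi)
  have e2 : el d o C (mv d o lam B t y) = el d o C y :=
    el_congr hC fun i hi => if_neg (hd2 i hi)
  funext i
  by_cases hi : i ∈ B
  · have h1 : mv d o lam B t (mv d o lam C t' y) i =
        mv d o lam C t' y i + t * lam B * el d o B (mv d o lam C t' y) := if_pos hi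
    have h2 : mv d o lam C t' y i = y i := if_neg (hd1 i hi)
    have h3 : mv d o lam C t' (mv d o lam B t y) i = mv d o lam B t y i := if_neg (hd1 i hi)
    have h4 : mv d o lam B t y i = y i + t * lam B * el d o B y := if_pos hi
    rw [h1, h2, h3, h4, e1]
  · have h1 : mv d o lam B t (mv d o lam C t' y) i = mv d o lam C t' y i := if_neg hi
    have h4 : mv d o lam B t y i = y i := if_neg hi
    rw [h1]
    by_cases hi' : i ∈ C
    · have h2 : mv d o lam C t' y i = y i + t' * lam C * el d o C y := if_pos hi'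
      have h3 : mv d o lam C t' (mv d o lam B t y) i =
        mv d o lam B t y i + t' * lam C * el d o C (mv d o lam B t y) := if_pos hi'
      rw [h2, h3, h4, e2]
    · have h2 : mv d o lam C t' y i = y i := if_neg hi'
      have h3 : mv d o lam C t' (mv d o lam B t y) i = mv d o lam B t y i := if_neg hi'
      rw [h2, h3, h4]

theorem mv_lin (t : K) : IsLinearMap K (mv d o lam B t) := by
  constructor
  · intro x y
    have h1 : el d o B (x + y) = el d o B x + el d o B y := by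
      simp only [el, Pi.add_apply, Finset.sum_add_distrib]
      ring
    funext i
    simp only [mv, Pi.add_apply, h1]
    split_ifs
    · ring
    · rfl
  · intro c x
    have h1 : el d o B (c • x) = c * el d o B x := by
      simp only [el, Pi.smul_apply, smul_eq_mul, ← Finset.mul_sum]
      ring
    funext i
    simp only [mv, Pi.smul_apply, smul_eq_mul, h1]
    split_ifs
    · ring
    · rfl

theorem mv_mem_sp [Fintype K] [DecidableEq K] {I : Finset (Fin m)} (hBI : B ⊆ I) (t : K)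
    {y : Fin m → K} (hy : y ∈ sp K I) : mv d o lam B t y ∈ sp K I := by
  have h1 := (Finset.mem_filter.1 hy).2
  refine Finset.mem_filter.2 ⟨Finset.mem_univ _, fun i hi => ?_⟩
  have h2 : mv d o lam B t y i = y i := if_neg fun h => hi (hBI h)
  rw [h2, h1 i hi]

end Moves

end Pool.SQA.DIM50

namespace Pool.SQA

open Finset Pool.SQA.DIM50

/-- DIM: the dimension bound. -/
theorem t_dim (hNRG : NRGStmt) (hWIN : WINStmt) (hWRD : WRDStmt) (hFIX : FIXStmt) : DIMStmt := by
  intro p k m d R _ o om I hd hdp hk hkp hI ho hom hinj hineq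
  have hIne : I.Nonempty := Finset.card_pos.1 (by omega)
  have hoI : o I ∈ I := ho I hIne
  -- the words
  obtain ⟨V, hV⟩ : ∃ V : Finset (List (Pr d o I × (ZMod p × ZMod p))), ∀ v, v ∈ V ↔
      v ≠ [] ∧ Red v ∧ v.length ≤ 2 * R := by
    have hfin : {v : List (Pr d o I × (ZMod p × ZMod p)) | v ≠ [] ∧ Red v ∧
        v.length ≤ 2 * R}.Finite :=
      (List.finite_length_le (Pr d o I × (ZMod p × ZMod p)) (2 * R)).subset fun v hv => hv.2.2
    exact ⟨hfin.toFinset, fun v => by rw [Set.Finite.mem_toFinset]; rfl⟩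
  have hex : ∀ v ∈ V, ∃ f : Polynomial (ZMod p), f ≠ 0 ∧
        ∀ (K : Type) [Field K] [Algebra (ZMod p) K] (z : K), Polynomial.aeval z f ≠ 0 →
          ∃ y : Fin m → K, (∀ i, i ∉ I → y i = 0) ∧
            act (tau p d o (fun B => z ^ om B) I) v y ≠ y := fun v hv => by
    obtain ⟨h1, h2, -⟩ := (hV v).1 hv
    exact hWRD p m d o om I hd hdp hI ho hom hinj v h1 h2
  choose! F hF0 hF using hex
  refine ⟨∏ v ∈ V, F v, V.card, Finset.prod_ne_zero_iff.2 hF0, ?_⟩
  intro K _ _ _ _ z hz X hX0 hX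
  rw [map_prod] at hz
  have hz' : ∀ v ∈ V, Polynomial.aeval z (F v) ≠ 0 := fun v hv => Finset.prod_ne_zero_iff.1 hz v hv
  obtain ⟨lam, hlam⟩ : ∃ lam : Finset (Fin m) → K, lam = fun B => z ^ om B := ⟨_, rfl⟩
  obtain ⟨τ, hτ⟩ : ∃ τ : Pr d o I → ZMod p × ZMod p → (Fin m → K) → Fin m → K,
    τ = tau p d o lam I := ⟨_, rfl⟩
  have hτ1 : ∀ j a y, τ j a y = mv d o lam j.1 (algebraMap (ZMod p) K a.1)
      (mv d o lam (I \ j.1) (algebraMap (ZMod p) K a.2) y) := fun j a y => by
    rw [hτ]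
    rfl
  have hB1 : ∀ j : Pr d o I, o j.1 ∈ j.1 := fun j => ho _ ⟨_, j.2.2.2⟩
  have hC0 : ∀ j : Pr d o I, (I \ j.1).card = d := fun j => by
    rw [Finset.card_sdiff_of_subset j.2.1, j.2.2.1, hI]
    omega
  have hC1 : ∀ j : Pr d o I, o (I \ j.1) ∈ I \ j.1 := fun j =>
    ho _ (Finset.card_pos.1 (by rw [hC0 j]; omega))
  have hdis : ∀ j : Pr d o I, Disjoint j.1 (I \ j.1) := fun j => Finset.disjoint_sdiff
  have hzero : ∀ j y, τ j 0 y = y := fun j y => by
    rw [hτ1]
    show mv d o lam j.1 (algebraMap (ZMod p) K 0) (mv d o lam (I \ j.1)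
      (algebraMap (ZMod p) K 0) y) = y
    rw [map_zero, mv_zero, mv_zero]
  have hcomp : ∀ j a b y, τ j a (τ j b y) = τ j (a + b) y := fun j a b y => by
    rw [hτ1, hτ1, hτ1, mv_comm (hC1 j) (hB1 j) (hdis j).symm, mv_mv (hB1 j) j.2.2.1,
      mv_mv (hC1 j) (hC0 j), Prod.fst_add, Prod.snd_add, map_add, map_add]
  have hlin : ∀ w : List (Pr d o I × (ZMod p × ZMod p)), IsLinearMap K (act τ w) := by
    intro w
    induction w with
    | nil => exact ⟨fun _ _ => rfl, fun _ _ => rfl⟩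
    | cons l w ih =>
      have h1 : ∀ y, act τ (l :: w) y = act τ w (mv d o lam l.1.1 (algebraMap (ZMod p) K l.2.1)
          (mv d o lam (I \ l.1.1) (algebraMap (ZMod p) K l.2.2) y)) := fun y => by
        show act τ w (τ l.1 l.2 y) = _
        rw [hτ1]
      constructor
      · intro x y
        rw [h1, h1, h1, (mv_lin _).map_add, (mv_lin _).map_add, ih.map_add]
      · intro c x
        rw [h1, h1, (mv_lin _).map_smul, (mv_lin _).map_smul, ih.map_smul]
  have hq1 : 1 ≤ Fintype.card K := Fintype.card_pos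
  have hcardY : (sp K I).card = Fintype.card K ^ (2 * d) := by
    obtain ⟨i0, hi0⟩ := hIne
    rw [← hI]
    refine (hFIX m K I 0 ⟨Pi.single i0 1, fun i hi => ?_, fun h => ?_⟩).1
    · have hne : i ≠ i0 := fun h => hi (by rw [h]; exact hi0)
      exact Pi.single_eq_of_ne hne _
    · have h2 := congrFun h i0
      rw [Pi.single_eq_same] at h2
      exact zero_ne_one h2
  have hfix : ∀ v ∈ V, ((sp K I).filter (fun y => act τ v y = y)).card ≤
      Fintype.card K ^ (2 * d - 1) := by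
    intro v hv
    obtain ⟨y0, hy0, hy1⟩ := hF v hv K z (hz' v hv)
    have h1 := (hFIX m K I (IsLinearMap.mk' _ (hlin v)) ⟨y0, hy0, by
      rw [IsLinearMap.mk'_apply, hτ, hlam]
      exact hy1⟩).2
    simp only [IsLinearMap.mk'_apply] at h1
    rw [hI] at h1
    have h2 : Fintype.card K ^ (2 * d) = Fintype.card K ^ (2 * d - 1) * Fintype.card K := by
      rw [← pow_succ]
      congr 1
      omega
    rw [h2] at h1
    exact Nat.le_of_mul_le_mul_right h1 hq1
  obtain ⟨G, hG⟩ : ∃ G : Finset (Fin m → K), G = (sp K I).filter fun y => ∀ v ∈ V, act τ v y ≠ y :=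
    ⟨_, rfl⟩
  have hGc : ((sp K I) \ G).card ≤ V.card * Fintype.card K ^ (2 * d - 1) := by
    have h1 : (sp K I) \ G ⊆ V.biUnion fun v => (sp K I).filter (fun y => act τ v y = y) := by
      intro y hy
      obtain ⟨hy1, hy2⟩ := Finset.mem_sdiff.1 hy
      rw [hG, Finset.mem_filter] at hy2
      push Not at hy2
      obtain ⟨v, hv, hvy⟩ := hy2 hy1
      exact Finset.mem_biUnion.2 ⟨v, hv, Finset.mem_filter.2 ⟨hy1, hvy⟩⟩
    exact (Finset.card_le_card h1).trans (Finset.card_biUnion_le_card_mul _ _ _ hfix)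
  have hk0 : (0 : ℝ) < k := by exact_mod_cast hk
  have hcJ := card_pr d o I (by omega) hI hoI
  have hβ0 : (0 : ℝ) ≤ (p : ℝ) ^ 2 / (k : ℝ) ^ 2 - 1 := by
    rw [sub_nonneg, le_div_iff₀ (by positivity), one_mul]
    have : (k : ℝ) ≤ p := by exact_mod_cast hkp
    exact pow_le_pow_left₀ hk0.le this 2
  have hmain := hNRG (Pr d o I) (ZMod p × ZMod p) (Fin m → K) τ (sp K I) G X
    ((p : ℝ) ^ 2 / (k : ℝ) ^ 2 - 1) R
    (fun j a y hy => by
      rw [hτ1]
      exact mv_mem_sp j.2.1 _ (mv_mem_sp Finset.sdiff_subset _ hy))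
    hX0 hβ0
    (by
      rw [hcJ]
      have h1 : ((p : ℝ) ^ 2 + (((2 * d - 1).choose (d - 1) : ℕ) : ℝ) * (k : ℝ) ^ 2) ≤
          (((2 * d - 1).choose (d - 1) : ℕ) : ℝ) * (p : ℝ) ^ 2 := by exact_mod_cast hineq
      have h2 : ((p : ℝ) ^ 2 / (k : ℝ) ^ 2 - 1) = ((p : ℝ) ^ 2 - (k : ℝ) ^ 2) / (k : ℝ) ^ 2 := by
        field_simp
      rw [h2, mul_div_assoc', le_div_iff₀ (by positivity)]
      linarith)
    (by
      intro ξ hξ y hy j
      have h1 := hX ξ hξ y hy j.1 j.2.1 j.2.2.1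
      have h2 : ∑ t : ZMod p, ∑ t' : ZMod p,
          ‖ξ (mv d o (fun B => z ^ om B) j.1 (algebraMap (ZMod p) K t)
            (mv d o (fun B => z ^ om B) (I \ j.1) (algebraMap (ZMod p) K t') y))‖ ^ 2 =
          ‖ξ y‖ ^ 2 + ∑ a ∈ (univ : Finset (ZMod p × ZMod p)).erase 0, ‖ξ (τ j a y)‖ ^ 2 := by
        have h3 := Finset.add_sum_erase (univ : Finset (ZMod p × ZMod p))
          (fun a => ‖ξ (τ j a y)‖ ^ 2) (Finset.mem_univ 0)
        rw [hzero] at h3
        rw [h3, Fintype.sum_prod_type]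
        simp only [hτ1, hlam]
      rw [h2] at h1
      have h4 : ((p : ℝ) ^ 2 / (k : ℝ) ^ 2 - 1) * ‖ξ y‖ ^ 2 =
          ((p : ℝ) ^ 2 * ‖ξ y‖ ^ 2) / (k : ℝ) ^ 2 - ‖ξ y‖ ^ 2 := by ring
      have h5 : ((p : ℝ) ^ 2 * ‖ξ y‖ ^ 2) / (k : ℝ) ^ 2 ≤ ‖ξ y‖ ^ 2 +
          ∑ a ∈ (univ : Finset (ZMod p × ZMod p)).erase 0, ‖ξ (τ j a y)‖ ^ 2 := by
        rw [div_le_iff₀ (by positivity), mul_comm _ ((k : ℝ) ^ 2)]
        exact h1
      rw [h4]
      linarith)
    (by
      intro y hy w w' hw hw' hwR hwR' hww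
      by_contra hne
      obtain ⟨v, hv0, hv1, hv2, hv3⟩ := hWIN (Pr d o I) (ZMod p × ZMod p) (Fin m → K) τ hzero hcomp
        y w w' hw hw' hne hww
      rw [hG] at hy
      exact (Finset.mem_filter.1 hy).2 v ((hV v).2 ⟨hv0, hv1, by omega⟩) hv3)
  have hGc' : ((((sp K I) \ G).card : ℕ) : ℝ) ≤ V.card * (Fintype.card K : ℝ) ^ (2 * d - 1) := by
    exact_mod_cast hGc
  have hcY : (((sp K I).card : ℕ) : ℝ) = (Fintype.card K : ℝ) ^ (2 * d) := by
    rw [hcardY]
    push_cast
    rfl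
  rw [hcY] at hmain
  linarith

end Pool.SQA
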